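import Pool.Agent.Helper95.PM.Stmts
import Pool.Agent.Helper81.PW.INN

/-! Auxiliary facts for the rows of the molecules. -/

set_option autoImplicit false

namespace Pool.Agent.Helper95.PW

open MeasureTheory Filter

theorem innm_nr_cont : Continuous nr := by
  unfold nr
  fun_prop

theorem innm_pot_meas {M : ℕ} (X : Fin M → R3) (Z : Fin M → ℝ) : Measurable (pot X Z) := by
  unfold pot
  apply Finset.measurable_fun_sum
  intro j _
  exact (com_nr_meas.comp (measurable_id.sub_const (X j))).const_div (Z j)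

theorem innm_pot_nonneg {M : ℕ} (X : Fin M → R3) (Z : Fin M → ℝ) (hZ : ∀ j, 0 ≤ Z j) (y : R3) :
    0 ≤ pot X Z y :=
  Finset.sum_nonneg fun j _ => div_nonneg (hZ j) (com_nr_nonneg _)

theorem innm_hm_memLp (hI : ST_INTM) {n M : ℕ} (X : Fin M → R3) (Z : Fin M → ℝ) (v : Cf n → ℝ)
    (hv : ContDiff ℝ (⊤ : ℕ∞) v) (hc : HasCompactSupport v) : MemLp (hmM X Z v) 2 volume := by
  obtain ⟨_, _, i3, i4⟩ := hI n M X Z v v hv hc hv hc
  have m3 : Measurable (fun x : Cf n => ∑ k, pot X Z (x k)) := by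
    apply Finset.measurable_fun_sum
    intro k _
    exact (innm_pot_meas X Z).comp (measurable_pi_apply k)
  have a3 : MemLp (fun x : Cf n => (∑ k, pot X Z (x k)) * v x) 2 volume :=
    (memLp_two_iff_integrable_sq (m3.mul hv.continuous.measurable).aestronglyMeasurable).2 i3
  have a4 : MemLp (fun x : Cf n => rep x * v x) 2 volume :=
    (memLp_two_iff_integrable_sq
      ((com_rep_meas n).mul hv.continuous.measurable).aestronglyMeasurable).2 i4
  have a5 : MemLp (fun x : Cf n => ∑ k, ∑ i, dv k i (dv k i v) x) 2 volume := by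
    apply memLp_finsetSum
    intro k _
    apply memLp_finsetSum
    intro i _
    exact com_memLp _ (com_dv_smooth k i _ (com_dv_smooth k i v hv))
      (com_dv_cs k i _ (com_dv_cs k i v hc))
  have e : hmM X Z v = fun x : Cf n => -(∑ k, ∑ i, dv k i (dv k i v) x) +
      (rep x * v x - (∑ k, pot X Z (x k)) * v x) := by
    funext x
    unfold hmM
    ring
  rw [e]
  exact a5.neg.add (a4.sub a3)

/-- the upper bound for the form by the residuum -/
theorem innm_Q_le (hQ : ST_QHM) (hI : ST_INTM) {n M : ℕ} (X : Fin M → R3) (Z : Fin M → ℝ) (E : ℝ)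
    (u : Wf n) (hu : Sm u) : QM X Z u ≤ E * sq u + sq u / 4 + resM X Z E u := by
  obtain ⟨h1, h2⟩ := hQ n M X Z u u hu hu
  rw [h2, h1]
  unfold resM sq
  rw [Finset.mul_sum, Finset.sum_div, ← Finset.sum_add_distrib, ← Finset.sum_add_distrib]
  apply Finset.sum_le_sum
  intro s _
  have hu2 : MemLp (u s) 2 volume := com_memLp _ (hu s).1 (hu s).2
  have hh : MemLp (hmM X Z (u s)) 2 volume := innm_hm_memLp hI X Z _ (hu s).1 (hu s).2
  have hd : MemLp (fun x => hmM X Z (u s) x - E * u s x) 2 volume := hh.sub (hu2.const_mul E)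
  have i1 : Integrable (fun x => u s x ^ 2) := hu2.integrable_sq
  have i2 : Integrable (fun x => (hmM X Z (u s) x - E * u s x) ^ 2) := hd.integrable_sq
  have i3 : Integrable (fun x => u s x * hmM X Z (u s) x) := hu2.integrable_mul hh
  have e1 : ∫ x, (E * u s x ^ 2 + u s x ^ 2 / 4 + (hmM X Z (u s) x - E * u s x) ^ 2) =
      E * (∫ x, u s x ^ 2) + (∫ x, u s x ^ 2) / 4 +
        ∫ x, (hmM X Z (u s) x - E * u s x) ^ 2 := by
    rw [integral_add, integral_add, integral_const_mul, integral_div]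
    · exact i1.const_mul E
    · exact i1.div_const 4
    · exact (i1.const_mul E).add (i1.div_const 4)
    · exact i2
  rw [← e1]
  apply integral_mono i3 (((i1.const_mul E).add (i1.div_const 4)).add i2)
  intro x
  show u s x * hmM X Z (u s) x ≤
    E * u s x ^ 2 + u s x ^ 2 / 4 + (hmM X Z (u s) x - E * u s x) ^ 2
  nlinarith [sq_nonneg (u s x / 2 - (hmM X Z (u s) x - E * u s x))]

theorem innm_Q_le_one (hQ : ST_QHM) (hI : ST_INTM) {n M : ℕ} (X : Fin M → R3) (Z : Fin M → ℝ)
    (E : ℝ) (u : Wf n) (hu : Sm u) (hE : E ≤ 0) (h1 : sq u ≤ 2) (h2 : resM X Z E u ≤ 1 / 2) :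
    QM X Z u ≤ 1 := by
  have h := innm_Q_le hQ hI X Z E u hu
  have h3 : E * sq u ≤ 0 := mul_nonpos_of_nonpos_of_nonneg hE (com_sq_nonneg u)
  linarith

theorem innm_nb_closed {M : ℕ} (X : Fin M → R3) (R : ℝ) : IsClosed (Nb X R) := by
  have h : Nb X R = ⋃ j, {y : R3 | nr (y - X j) ≤ R} := by
    ext y; simp [Nb]
  rw [h]
  refine isClosed_iUnion_of_finite fun j => ?_
  exact isClosed_le (innm_nr_cont.comp (continuous_id.sub continuous_const)) continuous_const

theorem innm_pd_zero {M : ℕ} {X : Fin M → R3} {m : Fin 3} {K R : ℝ} {g : R3 → ℝ}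
    (hg : IsCut X m K R g) {y : R3} (hy : y ∉ Nb X (2 * R)) (i : Fin 3) : pd i g y = 0 := by
  have h1 : g =ᶠ[nhds y] fun _ => 0 := by
    filter_upwards [(innm_nb_closed X (2 * R)).isOpen_compl.mem_nhds hy] with z hz
    refine hg.far z fun j => ?_
    by_contra hc
    exact hz ⟨j, not_lt.1 hc⟩
  unfold pd
  rw [h1.fderiv_eq]
  simp

theorem innm_ballc_meas (a : R3) (R : ℝ) : Measurable (ballc a R) := by
  unfold ballc
  refine measurable_const.indicator ?_
  exact (isClosed_le (innm_nr_cont.comp (continuous_id.sub continuous_const))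
    continuous_const).measurableSet

theorem innm_ballc_nonneg (a : R3) (R : ℝ) (y : R3) : 0 ≤ ballc a R y :=
  Set.indicator_nonneg (fun _ _ => zero_le_one) y

theorem innm_ballc_le (a : R3) (R : ℝ) (y : R3) : ballc a R y ≤ 1 := by
  unfold ballc
  exact Set.indicator_le_self' (fun _ _ => zero_le_one) y

theorem innm_ind_nonneg (S : Set R3) (y : R3) : 0 ≤ ind S y :=
  Set.indicator_nonneg (fun _ _ => zero_le_one) y

theorem innm_int {n : ℕ} (w : R3 → ℝ) (hw : Measurable w) (h0 : ∀ y, 0 ≤ w y)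
    (h1 : ∀ y, w y ≤ 1) (v : Cf n → ℝ) (hv : MemLp v 2 volume) :
    Integrable (fun x : Cf n => (∑ k, w (x k)) * v x ^ 2) := by
  have i1 : Integrable (fun x : Cf n => (n : ℝ) * v x ^ 2) := hv.integrable_sq.const_mul _
  have m3 : Measurable (fun x : Cf n => ∑ k, w (x k)) := by
    apply Finset.measurable_fun_sum
    intro k _
    exact hw.comp (measurable_pi_apply k)
  refine i1.mono' (m3.aestronglyMeasurable.mul hv.integrable_sq.aestronglyMeasurable) ?_
  refine Eventually.of_forall fun x => ?_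
  have h2 : 0 ≤ ∑ k, w (x k) := Finset.sum_nonneg fun k _ => h0 _
  have h3 : ∑ k, w (x k) ≤ (n : ℝ) := by
    calc ∑ k, w (x k) ≤ ∑ _k : Fin n, (1 : ℝ) := Finset.sum_le_sum fun k _ => h1 _
      _ = n := by simp
  rw [Real.norm_eq_abs, abs_of_nonneg (mul_nonneg h2 (sq_nonneg _))]
  exact mul_le_mul_of_nonneg_right h3 (sq_nonneg _)

/-- the neighbourhood of the nuclei against the balls -/
theorem innm_ind_le {n M : ℕ} (X : Fin M → R3) (R : ℝ) (u : Wf n) (hu : Sm u) :
    one (ind (Nb X R)) u ≤ ∑ j, one (ballc (X j) R) u := by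
  unfold one
  rw [Finset.sum_comm]
  refine Finset.sum_le_sum fun s _ => ?_
  have hu2 : MemLp (u s) 2 volume := com_memLp _ (hu s).1 (hu s).2
  have ij : ∀ j ∈ Finset.univ, Integrable (fun x : Cf n =>
      (∑ k, ballc (X j) R (x k)) * u s x ^ 2) := fun j _ =>
    innm_int _ (innm_ballc_meas _ _) (innm_ballc_nonneg _ _) (innm_ballc_le _ _) _ hu2
  rw [← integral_finsetSum _ ij]
  have hmeas : Measurable (ind (Nb X R)) := by
    unfold ind
    exact measurable_const.indicator (innm_nb_closed X R).measurableSet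
  have hle1 : ∀ y, ind (Nb X R) y ≤ 1 := fun y => by
    unfold ind
    exact Set.indicator_le_self' (fun _ _ => zero_le_one) y
  refine integral_mono (innm_int _ hmeas (innm_ind_nonneg _) hle1 _ hu2)
    (integrable_finsetSum _ ij) fun x => ?_
  show (∑ k, ind (Nb X R) (x k)) * u s x ^ 2 ≤
    ∑ j, (∑ k, ballc (X j) R (x k)) * u s x ^ 2
  rw [← Finset.sum_mul, Finset.sum_comm]
  refine mul_le_mul_of_nonneg_right (Finset.sum_le_sum fun k _ => ?_) (sq_nonneg _)
  by_cases hy : x k ∈ Nb X R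
  · obtain ⟨j, hj⟩ := hy
    have h1 : ballc (X j) R (x k) = 1 := by
      unfold ballc
      exact Set.indicator_of_mem (s := {y | nr (y - X j) ≤ R}) hj _
    calc ind (Nb X R) (x k) ≤ 1 := hle1 _
      _ = ballc (X j) R (x k) := h1.symm
      _ ≤ ∑ j, ballc (X j) R (x k) :=
        Finset.single_le_sum (fun j _ => innm_ballc_nonneg (X j) R (x k)) (Finset.mem_univ j)
  · have h1 : ind (Nb X R) (x k) = 0 := by
      unfold ind
      exact Set.indicator_of_notMem hy _
    rw [h1]
    exact Finset.sum_nonneg fun j _ => innm_ballc_nonneg _ _ _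

end Pool.Agent.Helper95.PW
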