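import Pool.Agent.Helper33.PM.Com

/-! Row INNM. -/

set_option autoImplicit false

namespace Pool.Agent.Helper95.PW

open MeasureTheory Filter

theorem st_INNM (h1 : ST_INLM) (h2 : ST_NRM) (h3 : ST_TUPM) (h4 : ST_APXM) (h5 : ST_LMTM)
    (h7 : ST_QHM) (h8 : ST_INTM) : ST_INNM := by
  obtain ⟨C1, hC1, H1⟩ := h1
  obtain ⟨C2, hC2, H2⟩ := h2
  obtain ⟨C3, hC3, H3⟩ := h3
  obtain ⟨C4, hC4⟩ : ∃ C4 : ℝ, C4 = C2 * (1 + (4 * C3) ^ (3 / 5 : ℝ)) := ⟨_, rfl⟩
  have hC4pos : 0 < C4 := by rw [hC4]; positivity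
  refine ⟨C1 * (C4 * (3 * C3 + C4)), by positivity, ?_⟩
  intro n M X Z E φ G K R ν g hn hNuc hK hG hE hR hg hν m
  have hK0 : 0 < K := by linarith
  obtain ⟨u, hu⟩ := h4 n M X Z E φ G hG
  obtain ⟨l1, l2, l3⟩ := h5 n M X Z E φ G u hG hu
  obtain ⟨hsm, _, _, ⟨M0, hM0⟩, hres⟩ := hu
  have hn0 : (1:ℝ) ≤ n := by exact_mod_cast hn
  have hnp : (0:ℝ) < n := by linarith
  have hMr : (1:ℝ) ≤ M := by
    have hM1 : 1 ≤ M := by
      rcases Nat.eq_zero_or_pos M with h0 | h0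
      · subst h0
        have h9 := hNuc.2
        rw [Finset.univ_eq_empty, Finset.sum_empty] at h9
        linarith
      · exact h0
    exact_mod_cast hM1
  obtain ⟨W, hW⟩ : ∃ W : ℝ, W = (n:ℝ) ^ (7 / 3 : ℝ) := ⟨_, rfl⟩
  have hWpos : 0 < W := by rw [hW]; positivity
  obtain ⟨Y, hY⟩ : ∃ Y : ℝ, Y = (n:ℝ) ^ (13 / 3 : ℝ) := ⟨_, rfl⟩
  have hYpos : 0 < Y := by rw [hY]; positivity
  have hWY : (n:ℝ) ^ 2 * W = Y := by
    rw [hW, hY, ← Real.rpow_natCast (n:ℝ) 2, ← Real.rpow_add hnp]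
    norm_num
  rw [← hW] at hν
  rw [← hW, ← hY]
  have hνpos : 0 < ν := by
    rw [hν]
    positivity
  obtain ⟨C', hC', HI⟩ := H1 n M X Z E g K R (C3 * W + |M0|) (Nb X (2 * R)) hG.low hNuc.1 hK
    (fun m => (hg m).sc) hR (innm_nb_closed X (2 * R))
    (fun m y hy i => innm_pd_zero (hg m) hy i)
    (fun m j y hy i => (hg m).near j y hy.le i)
  have hev : ∀ᶠ j in atTop, sq (fun s => Pg (g m) (u j s)) ^ 2 ≤
      C1 * (C4 * (3 * C3 + C4)) * K ^ 4 * (M : ℝ) ^ 2 * (ν * (W / R ^ 2 + ν / R ^ 4 + Y)) +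
        C' * Real.sqrt (resM X Z E (u j)) := by
    have e1 : ∀ᶠ j in atTop, sq (u j) ≤ 2 :=
      l1.eventually_le_const (by norm_num : (1:ℝ) < 2)
    have e2 : ∀ᶠ j in atTop, resM X Z E (u j) ≤ 1 / 2 :=
      hres.eventually_le_const (by norm_num : (0:ℝ) < 1 / 2)
    filter_upwards [e1, e2] with j hj1 hj2
    have hQ := innm_Q_le_one h7 h8 X Z E (u j) (hsm j).1 hE hj1 hj2
    obtain ⟨t1, t2, t3⟩ := H3 n M X Z (u j) hn hNuc (hsm j).1 (hsm j).2 hj1 hQ
    rw [← hW] at t1 t2 t3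
    have p1 := com_kin_nonneg (u j)
    have p2 := com_pair_nonneg (u j)
    have p3 : 0 ≤ one (pot X Z) (u j) :=
      com_one_nonneg _ (innm_pot_nonneg X Z hNuc.1) _
    have p4 : 0 ≤ one (ind (Nb X (2 * R))) (u j) := com_one_nonneg _ (innm_ind_nonneg _) _
    have hN : one (ind (Nb X (2 * R))) (u j) ≤ M * (C4 * ν) := by
      refine (innm_ind_le X (2 * R) (u j) (hsm j).1).trans ?_
      have hb : ∀ i ∈ Finset.univ, one (ballc (X i) (2 * R)) (u j) ≤ C4 * ν := fun i _ => by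
        have := inn_ball hC2 hC3 hWpos hR p1 t1
          (H2 n (u j) (X i) (hsm j).1 (hsm j).2 hj1 (2 * R) (by positivity))
        rw [← hC4, ← hν] at this
        exact this
      refine (Finset.sum_le_sum hb).trans (le_of_eq ?_)
      rw [Finset.sum_const, Finset.card_univ, Fintype.card_fin, nsmul_eq_mul]
    have hM := le_abs_self M0
    have hM1 := abs_nonneg M0
    have hM2 := hM0 j
    have hCW : 0 ≤ C3 * W := by positivity
    have hb := HI (u j) (hsm j).1 (hsm j).2 hj1 (by linarith) (by linarith) (by linarith)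
      (by linarith) (by linarith) m
    refine hb.trans ?_
    apply add_le_add _ le_rfl
    rw [hNuc.2]
    have hbr : (kin (u j) + pair (u j) + one (pot X Z) (u j)) / R ^ 2 +
        one (ind (Nb X (2 * R))) (u j) / R ^ 4 + (n:ℝ) ^ 2 * kin (u j) ≤
        M * ((3 * C3 + C4) * (W / R ^ 2 + ν / R ^ 4 + Y)) := by
      have b1 : (kin (u j) + pair (u j) + one (pot X Z) (u j)) / R ^ 2 ≤
          (3 * C3 * W) / R ^ 2 := by
        apply div_le_div_of_nonneg_right _ (by positivity)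
        linarith
      have b2 : one (ind (Nb X (2 * R))) (u j) / R ^ 4 ≤ (M * (C4 * ν)) / R ^ 4 :=
        div_le_div_of_nonneg_right hN (by positivity)
      have b3 : (n:ℝ) ^ 2 * kin (u j) ≤ C3 * Y := by
        calc (n:ℝ) ^ 2 * kin (u j) ≤ (n:ℝ) ^ 2 * (C3 * W) :=
              mul_le_mul_of_nonneg_left t1 (by positivity)
          _ = C3 * ((n:ℝ) ^ 2 * W) := by ring
          _ = C3 * Y := by rw [hWY]
      have c1 : 0 ≤ W / R ^ 2 := by positivity
      have c2 : 0 ≤ ν / R ^ 4 := by positivity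
      have d1 : (3 * C3 * W) / R ^ 2 = 3 * C3 * (W / R ^ 2) := by ring
      have d2 : (M * (C4 * ν)) / R ^ 4 = M * (C4 * (ν / R ^ 4)) := by ring
      rw [d1] at b1
      rw [d2] at b2
      have b1' : 3 * C3 * (W / R ^ 2) ≤ M * (3 * C3 * (W / R ^ 2)) :=
        le_mul_of_one_le_left (by positivity) hMr
      have b3' : C3 * Y ≤ M * (C3 * Y) := le_mul_of_one_le_left (by positivity) hMr
      have b4 : 3 * C3 * (W / R ^ 2) + C4 * (ν / R ^ 4) + C3 * Y ≤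
          (3 * C3 + C4) * (W / R ^ 2 + ν / R ^ 4 + Y) := by
        nlinarith [mul_nonneg hC4pos.le c1, mul_nonneg hC3.le c2, mul_nonneg hC3.le hYpos.le,
          mul_nonneg hC4pos.le hYpos.le]
      calc _ ≤ M * (3 * C3 * (W / R ^ 2)) + M * (C4 * (ν / R ^ 4)) + M * (C3 * Y) := by linarith
        _ = M * (3 * C3 * (W / R ^ 2) + C4 * (ν / R ^ 4) + C3 * Y) := by ring
        _ ≤ _ := mul_le_mul_of_nonneg_left b4 (by linarith)
    have hbr0 : 0 ≤ (kin (u j) + pair (u j) + one (pot X Z) (u j)) / R ^ 2 +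
        one (ind (Nb X (2 * R))) (u j) / R ^ 4 + (n:ℝ) ^ 2 * kin (u j) := by positivity
    calc C1 * K ^ 4 * (one (ind (Nb X (2 * R))) (u j) *
          ((kin (u j) + pair (u j) + one (pot X Z) (u j)) / R ^ 2 +
            one (ind (Nb X (2 * R))) (u j) / R ^ 4 + (n:ℝ) ^ 2 * kin (u j)))
        ≤ C1 * K ^ 4 * ((M * (C4 * ν)) *
            (M * ((3 * C3 + C4) * (W / R ^ 2 + ν / R ^ 4 + Y)))) := by
          apply mul_le_mul_of_nonneg_left _ (by positivity)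
          exact mul_le_mul hN hbr hbr0 (by positivity)
      _ = C1 * (C4 * (3 * C3 + C4)) * K ^ 4 * (M : ℝ) ^ 2 *
            (ν * (W / R ^ 2 + ν / R ^ 4 + Y)) := by ring
  have lim1 : Tendsto (fun j => sq (fun s => Pg (g m) (u j s)) ^ 2) atTop
      (nhds (sq (PG (g m) φ G) ^ 2)) :=
    (l3 _ (hg m).sc.sm (hg m).sc.cs).pow 2
  have lim2 : Tendsto (fun j => C1 * (C4 * (3 * C3 + C4)) * K ^ 4 * (M : ℝ) ^ 2 *
      (ν * (W / R ^ 2 + ν / R ^ 4 + Y)) + C' * Real.sqrt (resM X Z E (u j))) atTop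
      (nhds (C1 * (C4 * (3 * C3 + C4)) * K ^ 4 * (M : ℝ) ^ 2 *
        (ν * (W / R ^ 2 + ν / R ^ 4 + Y)) + C' * Real.sqrt 0)) :=
    tendsto_const_nhds.add ((hres.sqrt).const_mul C')
  have hfin := le_of_tendsto_of_tendsto lim1 lim2 hev
  rw [Real.sqrt_zero, mul_zero, add_zero] at hfin
  exact hfin

end Pool.Agent.Helper95.PW
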